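import Mathlib
import Pool.Agent.Work.MP_f2e3c0_co.Defs
import Pool.Agent.Work.MP_f2e3c0_co.Final

open Pool.Agent.Work.MP_f2e3c0_co

/-- For every `k ≥ 4` the lollipop `L_{k,t}` (a clique `K_k` with a pendant path of `t - k` edges)
is a bonbon for all large `t`. -/
theorem Pool.Agent.Results.MP_f2e3c0_co.LollipopBonbon.result :
    ∀ k : ℕ, 4 ≤ k → ∃ T : ℕ, ∀ t : ℕ, T ≤ t → k < t ∧ IsBonbon (lollipop (k - 1) (t - k)) :=
  lollipop_main
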